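import Pool.Agent.W699.N4.Inv

/-!
# N4: averages of `B`, `B²`, `|Z|²`, `k²` and bounds
-/

set_option autoImplicit false
open Matrix MeasureTheory Set Metric Filter Topology
open scoped ENNReal

namespace Pool.Agent.W699.N4
open Pool.Agent.Helper82.OS (E gt gw)
open Pool.Agent.W546.N4

/-! ## skew matrices -/

theorem skew_entries {A : Matrix (Fin 5) (Fin 5) ℝ} (h : Aᵀ = -A) (a b : Fin 5) : A b a = -A a b := by
  have := congrFun (congrFun h a) b
  simpa using this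

theorem skew_diag {A : Matrix (Fin 5) (Fin 5) ℝ} (h : Aᵀ = -A) (a : Fin 5) : A a a = 0 := by
  have := skew_entries h a a
  linarith

theorem skew_bound {A : Matrix (Fin 5) (Fin 5) ℝ} (h : Aᵀ = -A) (w : Fin 5 → ℝ) :
    ∑ b, (∑ a, A b a * w a) ^ 2 ≤ (1 / 2) * (∑ a, ∑ b, A a b ^ 2) * ∑ a, w a ^ 2 := by
  have h00 := skew_diag h 0
  have h11 := skew_diag h 1
  have h22 := skew_diag h 2
  have h33 := skew_diag h 3
  have h44 := skew_diag h 4
  have h10 := skew_entries h 0 1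
  have h20 := skew_entries h 0 2
  have h30 := skew_entries h 0 3
  have h40 := skew_entries h 0 4
  have h21 := skew_entries h 1 2
  have h31 := skew_entries h 1 3
  have h41 := skew_entries h 1 4
  have h32 := skew_entries h 2 3
  have h42 := skew_entries h 2 4
  have h43 := skew_entries h 3 4
  simp only [Fin.sum_univ_five, h00, h11, h22, h33, h44, h10, h20, h30, h40, h21, h31, h41, h32, h42, h43]
  have key : ∀ a01 a02 a03 a04 a12 a13 a14 a23 a24 a34 w0 w1 w2 w3 w4 : ℝ,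
      (0 * w0 + a01 * w1 + a02 * w2 + a03 * w3 + a04 * w4) ^ 2 +
      (-a01 * w0 + 0 * w1 + a12 * w2 + a13 * w3 + a14 * w4) ^ 2 +
      (-a02 * w0 + -a12 * w1 + 0 * w2 + a23 * w3 + a24 * w4) ^ 2 +
      (-a03 * w0 + -a13 * w1 + -a23 * w2 + 0 * w3 + a34 * w4) ^ 2 +
      (-a04 * w0 + -a14 * w1 + -a24 * w2 + -a34 * w3 + 0 * w4) ^ 2 +
      ((w0 * a12 - w1 * a02 + w2 * a01) ^ 2 + (w0 * a13 - w1 * a03 + w3 * a01) ^ 2 +
       (w0 * a14 - w1 * a04 + w4 * a01) ^ 2 + (w0 * a23 - w2 * a03 + w3 * a02) ^ 2 +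
       (w0 * a24 - w2 * a04 + w4 * a02) ^ 2 + (w0 * a34 - w3 * a04 + w4 * a03) ^ 2 +
       (w1 * a23 - w2 * a13 + w3 * a12) ^ 2 + (w1 * a24 - w2 * a14 + w4 * a12) ^ 2 +
       (w1 * a34 - w3 * a14 + w4 * a13) ^ 2 + (w2 * a34 - w3 * a24 + w4 * a23) ^ 2) =
      (a01 ^ 2 + a02 ^ 2 + a03 ^ 2 + a04 ^ 2 + a12 ^ 2 + a13 ^ 2 + a14 ^ 2 + a23 ^ 2 + a24 ^ 2 + a34 ^ 2) *
        (w0 ^ 2 + w1 ^ 2 + w2 ^ 2 + w3 ^ 2 + w4 ^ 2) := by
    intros; ring
  have h := key (A 0 1) (A 0 2) (A 0 3) (A 0 4) (A 1 2) (A 1 3) (A 1 4) (A 2 3) (A 2 4) (A 3 4)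
    (w 0) (w 1) (w 2) (w 3) (w 4)
  have hp : 0 ≤ ((w 0 * A 1 2 - w 1 * A 0 2 + w 2 * A 0 1) ^ 2 + (w 0 * A 1 3 - w 1 * A 0 3 + w 3 * A 0 1) ^ 2 +
       (w 0 * A 1 4 - w 1 * A 0 4 + w 4 * A 0 1) ^ 2 + (w 0 * A 2 3 - w 2 * A 0 3 + w 3 * A 0 2) ^ 2 +
       (w 0 * A 2 4 - w 2 * A 0 4 + w 4 * A 0 2) ^ 2 + (w 0 * A 3 4 - w 3 * A 0 4 + w 4 * A 0 3) ^ 2 +
       (w 1 * A 2 3 - w 2 * A 1 3 + w 3 * A 1 2) ^ 2 + (w 1 * A 2 4 - w 2 * A 1 4 + w 4 * A 1 2) ^ 2 +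
       (w 1 * A 3 4 - w 3 * A 1 4 + w 4 * A 1 3) ^ 2 + (w 2 * A 3 4 - w 3 * A 2 4 + w 4 * A 2 3) ^ 2) := by
    positivity
  have h2 : (1 / 2 : ℝ) * (0 ^ 2 + A 0 1 ^ 2 + A 0 2 ^ 2 + A 0 3 ^ 2 + A 0 4 ^ 2 +
      ((-A 0 1) ^ 2 + 0 ^ 2 + A 1 2 ^ 2 + A 1 3 ^ 2 + A 1 4 ^ 2) +
      ((-A 0 2) ^ 2 + (-A 1 2) ^ 2 + 0 ^ 2 + A 2 3 ^ 2 + A 2 4 ^ 2) +
      ((-A 0 3) ^ 2 + (-A 1 3) ^ 2 + (-A 2 3) ^ 2 + 0 ^ 2 + A 3 4 ^ 2) +
      ((-A 0 4) ^ 2 + (-A 1 4) ^ 2 + (-A 2 4) ^ 2 + (-A 3 4) ^ 2 + 0 ^ 2)) =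
      A 0 1 ^ 2 + A 0 2 ^ 2 + A 0 3 ^ 2 + A 0 4 ^ 2 + A 1 2 ^ 2 + A 1 3 ^ 2 + A 1 4 ^ 2 + A 2 3 ^ 2 +
      A 2 4 ^ 2 + A 3 4 ^ 2 := by ring
  rw [h2]
  linarith

theorem skew_R {A : Matrix (Fin 5) (Fin 5) ℝ} (h : Aᵀ = -A) :
    ∑ k : Fin 4, A k.castSucc 4 ^ 2 ≤ (1 / 2) * (∑ a, ∑ b, A a b ^ 2) := by
  have h1 : ∑ a : Fin 5, ∑ b : Fin 5, A a b ^ 2 =
      (∑ k : Fin 4, (∑ l : Fin 4, A k.castSucc l.castSucc ^ 2 + A k.castSucc 4 ^ 2)) +
      (∑ l : Fin 4, A 4 l.castSucc ^ 2 + A 4 4 ^ 2) := by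
    rw [Fin.sum_univ_castSucc]
    simp only [Fin.sum_univ_castSucc (n := 4)]
    rfl
  have h2 : ∑ l : Fin 4, A 4 l.castSucc ^ 2 = ∑ l : Fin 4, A l.castSucc 4 ^ 2 :=
    Finset.sum_congr rfl fun l _ => by rw [skew_entries h l.castSucc 4]; ring
  have h3 : 0 ≤ ∑ k : Fin 4, ∑ l : Fin 4, A k.castSucc l.castSucc ^ 2 := by positivity
  rw [h1, h2, Finset.sum_add_distrib]
  have h4 : 0 ≤ A 4 4 ^ 2 := sq_nonneg _
  linarith

/-! ## forms -/

theorem gv_eq (G : NP) (w : E 5) (j : Fin 4) (b : Fin 5) :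
    G.gv w j b = ∑ k : Fin 4, G.Ga j b k.castSucc * hd w k + G.Ga j b 4 * w 4 := by
  simp only [NP.gv, Matrix.mulVec, dotProduct]
  rw [Fin.sum_univ_castSucc]
  rfl

theorem sq_form (a x : Fin 4 → ℝ) (c v : ℝ) : (∑ k, a k * x k + c * v) ^ 2 =
    qf (Matrix.of fun k l => a k * a l) x + 2 * v * (∑ k, (a k * c) * x k) + c ^ 2 * v ^ 2 := by
  have h1 : qf (Matrix.of fun k l => a k * a l) x = (∑ k, a k * x k) ^ 2 := by
    rw [pow_two, Finset.sum_mul_sum]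
    simp only [qf, Matrix.of_apply]
    refine Finset.sum_congr rfl fun i _ => Finset.sum_congr rfl fun j _ => ?_
    ring
  have h2 : ∑ k, (a k * c) * x k = c * ∑ k, a k * x k := by
    rw [Finset.mul_sum]
    exact Finset.sum_congr rfl fun i _ => by ring
  rw [h1, h2]
  ring

theorem qf_sum {ι : Type} (s : Finset ι) (N : ι → Matrix (Fin 4) (Fin 4) ℝ) (y : Fin 4 → ℝ) :
    qf (∑ i ∈ s, N i) y = ∑ i ∈ s, qf (N i) y := by
  simp only [qf_eq, Matrix.sum_mulVec, dotProduct_sum]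

/-- the matrix, vector and number of the form `B` -/
noncomputable def NB (G : NP) : Matrix (Fin 4) (Fin 4) ℝ :=
  ∑ j, ∑ b, Matrix.of fun k l : Fin 4 => G.Ga j b k.castSucc * G.Ga j b l.castSucc
noncomputable def mB (G : NP) (k : Fin 4) : ℝ := ∑ j, ∑ b, G.Ga j b k.castSucc * G.Ga j b 4
noncomputable def sB (G : NP) : ℝ := ∑ j, ∑ b, G.Ga j b 4 ^ 2

theorem B_eq (G : NP) (w : E 5) : G.B w =
    qf (NB G) (hd w) + 2 * w 4 * (∑ i, mB G i * hd w i) + sB G * w 4 ^ 2 := by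
  simp only [NP.B, gv_eq, sq_form, NB, qf_sum, mB, sB, Finset.sum_add_distrib, Finset.sum_mul]
  congr 1
  congr 1
  simp only [← Finset.mul_sum]
  congr 1
  calc ∑ j : Fin 4, ∑ b : Fin 5, ∑ k : Fin 4, G.Ga j b k.castSucc * G.Ga j b 4 * hd w k
      = ∑ j : Fin 4, ∑ k : Fin 4, ∑ b : Fin 5, G.Ga j b k.castSucc * G.Ga j b 4 * hd w k :=
        Finset.sum_congr rfl fun j _ => Finset.sum_comm
    _ = ∑ k : Fin 4, ∑ j : Fin 4, ∑ b : Fin 5, G.Ga j b k.castSucc * G.Ga j b 4 * hd w k :=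
        Finset.sum_comm

theorem sB_eq (G : NP) : sB G = G.R2 := by
  simp only [sB, NP.R2]
  refine Finset.sum_congr rfl fun j _ => ?_
  rw [Fin.sum_univ_castSucc]
  have : G.Ga j (Fin.last 4) 4 = 0 := skew_diag (G.sk j) 4
  rw [this]
  ring

theorem NB_apply (G : NP) (k l : Fin 4) :
    NB G k l = ∑ j, ∑ b, G.Ga j b k.castSucc * G.Ga j b l.castSucc := by
  simp [NB, Matrix.sum_apply]

theorem trNB (G : NP) : ∑ k, NB G k k = 2 * G.D - G.R2 := by
  have h1 : 2 * G.D = ∑ j, ∑ a, ∑ b, G.Ga j a b ^ 2 := by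
    simp only [NP.D]; ring
  have h2 : ∑ j, ∑ a, ∑ b, G.Ga j a b ^ 2 = ∑ k, NB G k k + sB G := by
    simp only [NB_apply, sB]
    have : ∑ k : Fin 4, ∑ j, ∑ b, G.Ga j b k.castSucc * G.Ga j b k.castSucc =
        ∑ j, ∑ b, ∑ k : Fin 4, G.Ga j b k.castSucc * G.Ga j b k.castSucc := by
      rw [Finset.sum_comm]
      exact Finset.sum_congr rfl fun j _ => Finset.sum_comm
    rw [this, ← Finset.sum_add_distrib]
    refine Finset.sum_congr rfl fun j _ => ?_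
    rw [← Finset.sum_add_distrib]
    refine Finset.sum_congr rfl fun b _ => ?_
    rw [Fin.sum_univ_castSucc]
    congr 1
    exact Finset.sum_congr rfl fun k _ => pow_two _
  rw [h1, h2, sB_eq]
  ring

/-! ## `BD` -/

theorem B_nonneg (G : NP) (w : E 5) : 0 ≤ G.B w := by
  simp only [NP.B]
  positivity

theorem B_le (G : NP) (w : E 5) : G.B w ≤ G.D * (uu w + w 4 ^ 2) := by
  have h1 : ∀ j, ∑ b, G.gv w j b ^ 2 ≤ (1 / 2) * (∑ a, ∑ b, G.Ga j a b ^ 2) * ∑ a, w a ^ 2 :=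
    fun j => skew_bound (G.sk j) w.ofLp
  have h2 : ∑ a : Fin 5, w a ^ 2 = uu w + w 4 ^ 2 := by
    rw [Fin.sum_univ_castSucc]; rfl
  simp only [h2] at h1
  calc G.B w = ∑ j, ∑ b, G.gv w j b ^ 2 := rfl
    _ ≤ ∑ j, (1 / 2) * (∑ a, ∑ b, G.Ga j a b ^ 2) * (uu w + w 4 ^ 2) :=
        Finset.sum_le_sum fun j _ => h1 j
    _ = G.D * (uu w + w 4 ^ 2) := by
        rw [← Finset.sum_mul, ← Finset.mul_sum]
        rfl

theorem R2_le (G : NP) : G.R2 ≤ G.D := by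
  calc G.R2 = ∑ j : Fin 4, ∑ k : Fin 4, G.Ga j k.castSucc 4 ^ 2 := rfl
    _ ≤ ∑ j : Fin 4, (1 / 2) * (∑ a, ∑ b, G.Ga j a b ^ 2) :=
        Finset.sum_le_sum fun j _ => skew_R (G.sk j)
    _ = G.D := by
        rw [← Finset.mul_sum]
        rfl

theorem Rs_le (G : NP) : G.Rs ≤ G.R2 := by
  have h1 : G.Rs ≤ ∑ j : Fin 4, ∑ k : Fin 4, (G.Ga j k.castSucc 4 ^ 2 + G.Ga k j.castSucc 4 ^ 2) / 2 := by
    simp only [NP.Rs]
    refine Finset.sum_le_sum fun j _ => Finset.sum_le_sum fun k _ => ?_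
    nlinarith [sq_nonneg (G.Ga j k.castSucc 4 - G.Ga k j.castSucc 4)]
  refine h1.trans (le_of_eq ?_)
  simp only [add_div, Finset.sum_add_distrib]
  have h2 : ∑ j : Fin 4, ∑ k : Fin 4, G.Ga k j.castSucc 4 ^ 2 / 2 =
      ∑ j : Fin 4, ∑ k : Fin 4, G.Ga j k.castSucc 4 ^ 2 / 2 := Finset.sum_comm
  rw [h2]
  simp only [NP.R2, ← Finset.sum_div]
  ring

theorem BD : St4_BD := by
  intro G w
  refine ⟨B_nonneg G w, B_le G w, R2_le G, Rs_le G, ?_⟩
  simp only [NP.s2]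
  positivity

/-! ## the bound of the norm of `M` -/

/-- the full matrix -/
noncomputable def MM (G : NP) (a c : Fin 5) : ℝ := ∑ j, ∑ b, G.Ga j b a * G.Ga j b c

theorem B_MM (G : NP) (w : E 5) : G.B w = ∑ a, ∑ c, MM G a c * w a * w c := by
  have h1 : G.B w = ∑ j, ∑ b, ∑ a, ∑ c, G.Ga j b a * G.Ga j b c * w a * w c := by
    simp only [NP.B, NP.gv, Matrix.mulVec, dotProduct]
    refine Finset.sum_congr rfl fun j _ => Finset.sum_congr rfl fun b _ => ?_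
    rw [pow_two, Finset.sum_mul_sum]
    refine Finset.sum_congr rfl fun a _ => Finset.sum_congr rfl fun c _ => ?_
    ring
  rw [h1]
  simp only [MM, Finset.sum_mul]
  calc ∑ j, ∑ b, ∑ a, ∑ c, G.Ga j b a * G.Ga j b c * w a * w c
      = ∑ j, ∑ a, ∑ b, ∑ c, G.Ga j b a * G.Ga j b c * w a * w c :=
        Finset.sum_congr rfl fun j _ => Finset.sum_comm
    _ = ∑ a, ∑ j, ∑ b, ∑ c, G.Ga j b a * G.Ga j b c * w a * w c := Finset.sum_comm
    _ = ∑ a, ∑ j, ∑ c, ∑ b, G.Ga j b a * G.Ga j b c * w a * w c :=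
        Finset.sum_congr rfl fun a _ => Finset.sum_congr rfl fun j _ => Finset.sum_comm
    _ = ∑ a, ∑ c, ∑ j, ∑ b, G.Ga j b a * G.Ga j b c * w a * w c :=
        Finset.sum_congr rfl fun a _ => Finset.sum_comm

theorem MM_sq (G : NP) : ∑ a, ∑ c, MM G a c ^ 2 ≤ 2 * G.D ^ 2 := by
  have h1 : ∑ a, ∑ c, MM G a c ^ 2 = ∑ j, ∑ b, G.B (WithLp.toLp 2 (G.Ga j b)) := by
    simp only [B_MM]
    calc ∑ a, ∑ c, MM G a c ^ 2
        = ∑ a, ∑ c, ∑ j, ∑ b, MM G a c * G.Ga j b a * G.Ga j b c := by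
          refine Finset.sum_congr rfl fun a _ => Finset.sum_congr rfl fun c _ => ?_
          rw [pow_two]
          nth_rewrite 2 [MM]
          simp only [Finset.mul_sum]
          refine Finset.sum_congr rfl fun j _ => Finset.sum_congr rfl fun b _ => ?_
          ring
      _ = ∑ a, ∑ j, ∑ c, ∑ b, MM G a c * G.Ga j b a * G.Ga j b c :=
          Finset.sum_congr rfl fun a _ => Finset.sum_comm
      _ = ∑ j, ∑ a, ∑ c, ∑ b, MM G a c * G.Ga j b a * G.Ga j b c := Finset.sum_comm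
      _ = ∑ j, ∑ a, ∑ b, ∑ c, MM G a c * G.Ga j b a * G.Ga j b c :=
          Finset.sum_congr rfl fun j _ => Finset.sum_congr rfl fun a _ => Finset.sum_comm
      _ = ∑ j, ∑ b, ∑ a, ∑ c, MM G a c * G.Ga j b a * G.Ga j b c :=
          Finset.sum_congr rfl fun j _ => Finset.sum_comm
  rw [h1]
  have h2 : ∀ j b, G.B (WithLp.toLp 2 (G.Ga j b)) ≤ G.D * ∑ a, G.Ga j b a ^ 2 := by
    intro j b
    have := B_le G (WithLp.toLp 2 (G.Ga j b))
    have h3 : uu (WithLp.toLp 2 (G.Ga j b)) + (WithLp.toLp 2 (G.Ga j b) : E 5) 4 ^ 2 =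
        ∑ a, G.Ga j b a ^ 2 := by
      rw [Fin.sum_univ_castSucc]; rfl
    rwa [h3] at this
  calc ∑ j, ∑ b, G.B (WithLp.toLp 2 (G.Ga j b)) ≤ ∑ j, ∑ b, G.D * ∑ a, G.Ga j b a ^ 2 :=
        Finset.sum_le_sum fun j _ => Finset.sum_le_sum fun b _ => h2 j b
    _ = G.D * (∑ j, ∑ b, ∑ a, G.Ga j b a ^ 2) := by simp only [Finset.mul_sum]
    _ = 2 * G.D ^ 2 := by
        have : ∑ j, ∑ b, ∑ a, G.Ga j b a ^ 2 = 2 * G.D := by simp only [NP.D]; ring
        rw [this]; ring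

theorem MM_split (G : NP) : ∑ a, ∑ c, MM G a c ^ 2 =
    ∑ i, ∑ j, NB G i j ^ 2 + 2 * ∑ i, mB G i ^ 2 + sB G ^ 2 := by
  rw [Fin.sum_univ_castSucc]
  simp only [Fin.sum_univ_castSucc (n := 4)]
  rw [Finset.sum_add_distrib]
  have h1 : ∀ i j : Fin 4, MM G i.castSucc j.castSucc = NB G i j := fun i j => by
    rw [NB_apply]; rfl
  have h2 : ∀ i : Fin 4, MM G i.castSucc (Fin.last 4) = mB G i := fun i => rfl
  have h3 : ∀ i : Fin 4, MM G (Fin.last 4) i.castSucc = mB G i := fun i => by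
    simp only [MM, mB]
    exact Finset.sum_congr rfl fun j _ => Finset.sum_congr rfl fun b _ => mul_comm _ _
  have h4 : MM G (Fin.last 4) (Fin.last 4) = sB G := by
    simp only [MM, sB]
    exact Finset.sum_congr rfl fun j _ => Finset.sum_congr rfl fun b _ => (pow_two _).symm
  simp only [h1, h2, h3, h4]
  ring

theorem NB_symm (G : NP) (i j : Fin 4) : NB G j i = NB G i j := by
  rw [NB_apply, NB_apply]
  exact Finset.sum_congr rfl fun j _ => Finset.sum_congr rfl fun b _ => mul_comm _ _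

/-! ## continuity -/

theorem continuous_gv (G : NP) (j : Fin 4) (b : Fin 5) : Continuous fun w => G.gv w j b := by
  simp only [NP.gv, Matrix.mulVec, dotProduct]
  fun_prop

theorem continuous_B (G : NP) : Continuous G.B := by
  unfold NP.B
  have := continuous_gv G
  fun_prop

theorem continuous_Z (G : NP) (b : Fin 5) : Continuous fun w => G.Z w b := by
  unfold NP.Z
  have := continuous_gv G
  fun_prop

theorem continuous_c4 : Continuous fun w : E 5 => w 4 := by fun_prop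

/-! ## forms of `Z` -/

noncomputable def NZ (G : NP) (b : Fin 5) : Matrix (Fin 4) (Fin 4) ℝ :=
  Matrix.of fun j k : Fin 4 => G.Ga j b k.castSucc

theorem Z_eq (G : NP) (w : E 5) (b : Fin 5) : G.Z w b =
    qf (NZ G b) (hd w) + 2 * w 4 * (∑ j, (G.Ga j b 4 / 2) * hd w j) + 0 * w 4 ^ 2 := by
  simp only [NP.Z, gv_eq, mul_add, Finset.sum_add_distrib, qf, NZ, Matrix.of_apply, Finset.mul_sum]
  rw [zero_mul, add_zero]
  congr 1
  · refine Finset.sum_congr rfl fun j _ => Finset.sum_congr rfl fun k _ => ?_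
    simp only [hd]; ring
  · refine Finset.sum_congr rfl fun j _ => ?_
    simp only [hd]; ring

theorem trNZ (G : NP) (b : Fin 5) : ∑ j, NZ G b j j = 0 := G.cr b

/-- symmetrised squares -/
theorem sym_sq (N : Matrix (Fin 4) (Fin 4) ℝ) : ∑ i, ∑ j, (N i j ^ 2 + N i j * N j i) =
    2 * ∑ i, ∑ j, ((N i j + N j i) / 2) ^ 2 := by
  have h1 : ∀ i j, 2 * ((N i j + N j i) / 2) ^ 2 =
      (N i j ^ 2 + N i j * N j i) / 2 + (N j i ^ 2 + N j i * N i j) / 2 := by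
    intro i j; ring
  simp only [Finset.mul_sum, h1, Finset.sum_add_distrib]
  have h2 : ∑ i, ∑ j, (N j i ^ 2 + N j i * N i j) / 2 = ∑ i, ∑ j, (N i j ^ 2 + N i j * N j i) / 2 :=
    Finset.sum_comm
  rw [h2]
  simp only [← Finset.sum_div, Finset.sum_add_distrib]
  ring

theorem sumZ (G : NP) (w : E 5) (b : Fin 5) : ∑ c, G.Z (pf (cell c) w) b ^ 2 =
    2 * (∑ i, ∑ j, ((NZ G b i j + NZ G b j i) / 2) ^ 2) * uu w ^ 2 +
      6 * (∑ j, G.Ga j b 4 ^ 2) * (uu w * w 4 ^ 2) := by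
  have h := avg2 (NZ G b) (fun j => G.Ga j b 4 / 2) 0 (w 4) (hd w)
  have h1 : ∀ c, G.Z (pf (cell c) w) b = qf (NZ G b) (mulq (cell c) (hd w)) +
      2 * w 4 * (∑ j, (G.Ga j b 4 / 2) * mulq (cell c) (hd w) j) + 0 * w 4 ^ 2 := by
    intro c
    rw [Z_eq, hd_pf, pf_last]
  simp only [h1, h, trNZ, sym_sq, ← uu_eq]
  have h2 : ∑ i, (G.Ga i b 4 / 2) ^ 2 = (∑ j, G.Ga j b 4 ^ 2) / 4 := by
    rw [Finset.sum_div]
    exact Finset.sum_congr rfl fun j _ => by ring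
  rw [h2]
  ring

theorem M : St4_M := by
  intro G F hF hF0
  have hmu : Measurable uu := continuous_uu.measurable
  have hmv : Measurable fun w : E 5 => w 4 := continuous_c4.measurable
  have hu0 : ∀ w, 0 ≤ uu w := fun w => by unfold uu; positivity
  have hD : 0 ≤ G.D := by simp only [NP.D]; positivity
  have hR2 : 0 ≤ G.R2 := by simp only [NP.R2]; positivity
  have hRs : 0 ≤ G.Rs := by simp only [NP.Rs]; positivity
  have hs2 : 0 ≤ G.s2 := by simp only [NP.s2]; positivity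
  have hR2D := R2_le G
  have eu : II (fun t u v => F t u v * u) = IW F uu := rfl
  have ev : II (fun t u v => F t u v * v ^ 2) = IW F (fun w => w 4 ^ 2) := rfl
  have euu : II (fun t u v => F t u v * u ^ 2) = IW F (fun w => uu w ^ 2) := rfl
  have euv : II (fun t u v => F t u v * (u * v ^ 2)) = IW F (fun w => uu w * w 4 ^ 2) := rfl
  have evv : II (fun t u v => F t u v * v ^ 4) = IW F (fun w => w 4 ^ 4) := rfl
  refine ⟨?_, ?_, ?_, ?_⟩
  · -- B
    rw [IW_avg hF hF0 (continuous_B G).measurable (B_nonneg G)]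
    have h1 : (fun w => (1 / 24) * ∑ c, G.B (pf (cell c) w)) =
        fun w => (2 * G.D - G.R2) / 4 * uu w + G.R2 * w 4 ^ 2 := by
      funext w
      simp only [B_eq, hd_pf, pf_last, avg1, trNB, sB_eq, ← uu_eq]
      ring
    rw [h1, IW_add hF hF0 (hmu.const_mul _)
      (fun w => mul_nonneg (by linarith) (hu0 w)) (fun w => mul_nonneg hR2 (sq_nonneg _)),
      IW_smul F (by linarith), IW_smul F hR2, eu, ev]
  · -- B ^ 2
    intro K hK1 hK2 hK3
    rw [euu] at hK1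
    rw [euv] at hK2
    rw [evv] at hK3
    rw [IW_avg hF hF0 ((continuous_B G).measurable.pow_const 2) (fun w => sq_nonneg _)]
    set S2 := ∑ i, ∑ j, NB G i j ^ 2 with hS2
    set m2 := ∑ i, mB G i ^ 2 with hm2
    have hS20 : 0 ≤ S2 := by positivity
    have hm20 : 0 ≤ m2 := by positivity
    have h1 : (fun w => (1 / 24) * ∑ c, G.B (pf (cell c) w) ^ 2) =
        fun w => ((2 * G.D - G.R2) ^ 2 + 2 * S2) / 24 * uu w ^ 2 +
          ((m2 + G.R2 * (2 * G.D - G.R2) / 2) * (uu w * w 4 ^ 2) + G.R2 ^ 2 * w 4 ^ 4) := by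
      funext w
      simp only [B_eq, hd_pf, pf_last, avg2, trNB, sB_eq, ← uu_eq, NB_symm G]
      have : ∑ i, ∑ j, (NB G i j ^ 2 + NB G i j * NB G i j) = 2 * S2 := by
        rw [hS2]
        simp only [Finset.mul_sum]
        exact Finset.sum_congr rfl fun i _ => Finset.sum_congr rfl fun j _ => by ring
      rw [this]
      ring
    have ha : 0 ≤ ((2 * G.D - G.R2) ^ 2 + 2 * S2) / 24 := by positivity
    have hb : 0 ≤ m2 + G.R2 * (2 * G.D - G.R2) / 2 := by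
      have : 0 ≤ G.R2 * (2 * G.D - G.R2) := mul_nonneg hR2 (by linarith)
      linarith
    have hc : 0 ≤ G.R2 ^ 2 := sq_nonneg _
    have hv4 : ∀ w : E 5, 0 ≤ w 4 ^ 4 := fun w => by positivity
    have hmuv : Measurable fun w : E 5 => uu w * w 4 ^ 2 := hmu.mul (hmv.pow_const 2)
    have huv : ∀ w : E 5, 0 ≤ uu w * w 4 ^ 2 := fun w => mul_nonneg (hu0 w) (sq_nonneg _)
    rw [h1, IW_add hF hF0 ((hmu.pow_const 2).const_mul _) (fun w => mul_nonneg ha (sq_nonneg _))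
      (fun w => add_nonneg (mul_nonneg hb (huv w)) (mul_nonneg hc (hv4 w))),
      IW_add hF hF0 (hmuv.const_mul _) (fun w => mul_nonneg hb (huv w))
        (fun w => mul_nonneg hc (hv4 w)),
      IW_smul F ha, IW_smul F hb, IW_smul F hc]
    set α : ℝ := ((2 * G.D - G.R2) ^ 2 + 2 * S2) / 24 with hα
    set β : ℝ := m2 + G.R2 * (2 * G.D - G.R2) / 2 with hβ
    have hk : ∀ (n : ℕ) (x : ℝ), 0 ≤ x → ENNReal.ofReal x * ((n : ℝ≥0∞) * K) =
        ENNReal.ofReal (n * x) * K := by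
      intro n x _
      rw [ENNReal.ofReal_mul (Nat.cast_nonneg n), ENNReal.ofReal_natCast]
      ring
    have hk1 := hk 24 α ha
    have hk2 := hk 4 β hb
    have hk3 := hk 3 _ hc
    push_cast at hk1 hk2 hk3
    calc _ ≤ ENNReal.ofReal α * (24 * K) + (ENNReal.ofReal β * (4 * K) +
            ENNReal.ofReal (G.R2 ^ 2) * (3 * K)) :=
          add_le_add (mul_le_mul_right hK1 _) (add_le_add (mul_le_mul_right hK2 _)
            (mul_le_mul_right hK3 _))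
      _ = ENNReal.ofReal (24 * α + (4 * β + 3 * G.R2 ^ 2)) * K := by
          rw [hk1, hk2, hk3, ENNReal.ofReal_add (mul_nonneg (by norm_num) ha)
            (add_nonneg (mul_nonneg (by norm_num) hb) (mul_nonneg (by norm_num) hc)),
            ENNReal.ofReal_add (mul_nonneg (by norm_num) hb) (mul_nonneg (by norm_num) hc),
            add_mul, add_mul]
      _ ≤ ENNReal.ofReal (8 * G.D ^ 2) * K := by
          have h5 := MM_sq G
          rw [MM_split, ← hS2, ← hm2, sB_eq] at h5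
          refine mul_le_mul_left (ENNReal.ofReal_le_ofReal ?_) _
          rw [hα, hβ]
          linarith
  · -- Z ^ 2
    have hmZ : Measurable fun w => ∑ b, G.Z w b ^ 2 := by
      refine Finset.measurable_sum _ fun b _ => ?_
      exact (continuous_Z G b).measurable.pow_const 2
    rw [IW_avg hF hF0 hmZ (fun w => Finset.sum_nonneg fun b _ => sq_nonneg _)]
    have h1 : (fun w => (1 / 24) * ∑ c, ∑ b, G.Z (pf (cell c) w) b ^ 2) =
        fun w => G.s2 / 12 * uu w ^ 2 + G.R2 / 4 * (uu w * w 4 ^ 2) := by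
      funext w
      rw [Finset.sum_comm]
      simp only [sumZ, Finset.sum_add_distrib, ← Finset.sum_mul, ← Finset.mul_sum]
      have h2 : ∑ b, ∑ i, ∑ j, ((NZ G b i j + NZ G b j i) / 2) ^ 2 = G.s2 := by
        simp only [NP.s2, NZ, Matrix.of_apply]
        rw [Finset.sum_comm]
        exact Finset.sum_congr rfl fun i _ => Finset.sum_comm
      have h3 : ∑ b, ∑ j, G.Ga j b 4 ^ 2 = G.R2 := by
        rw [← sB_eq]
        exact Finset.sum_comm
      rw [h2, h3]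
      ring
    rw [h1, IW_add hF hF0 ((hmu.pow_const 2).const_mul _)
      (fun w => mul_nonneg (by positivity) (sq_nonneg _))
      (fun w => mul_nonneg (by positivity) (mul_nonneg (hu0 w) (sq_nonneg _))),
      IW_smul F (by positivity), IW_smul F (by positivity), euu, euv]
  · -- k ^ 2
    have hmk : Measurable fun w => G.k w ^ 2 := by
      unfold NP.k
      exact (((hmv.mul (continuous_Z G 4).measurable).div hmu)).pow_const 2
    rw [IW_avg hF hF0 hmk (fun w => sq_nonneg _)]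
    have h1 : IW F (fun w => (1 / 24) * ∑ c, G.k (pf (cell c) w) ^ 2) =
        IW F (fun w => G.Rs / 12 * w 4 ^ 2) := by
      apply IW_congr
      intro w hw
      have h2 : ∀ c, G.k (pf (cell c) w) ^ 2 = (w 4 / uu w) ^ 2 * G.Z (pf (cell c) w) 4 ^ 2 := by
        intro c
        simp only [NP.k]
        rw [pf_last, uu_pf (nn_cell c)]
        ring
      simp only [h2, ← Finset.mul_sum, sumZ]
      have h3 : ∑ j, G.Ga j 4 4 ^ 2 = 0 :=
        Finset.sum_eq_zero fun j _ => by rw [skew_diag (G.sk j) 4]; ring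
      have h4 : ∑ i, ∑ j, ((NZ G 4 i j + NZ G 4 j i) / 2) ^ 2 = G.Rs := by
        simp only [NP.Rs, NZ, Matrix.of_apply]
        refine Finset.sum_congr rfl fun i _ => Finset.sum_congr rfl fun j _ => ?_
        rw [skew_entries (G.sk i) j.castSucc 4, skew_entries (G.sk j) i.castSucc 4]
        ring
      rw [h3, h4]
      field_simp
      ring
    rw [h1, IW_smul F (by positivity), ev]

end Pool.Agent.W699.N4
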