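import Mathlib

/-!
# The 24-cell is a spherical design: averages of quartic forms over the Hurwitz units
-/

set_option autoImplicit false
open Matrix

namespace Pool.Agent.W699.N4

/-- index set of the 24 Hurwitz units -/
abbrev IX : Type := (Bool × Fin 4) ⊕ (Bool × Bool × Bool × Bool)

/-- sign -/
def sg (b : Bool) : ℝ := if b then 1 else -1

/-- the 24 unit quaternions -/
noncomputable def cell : IX → Fin 4 → ℝ
  | Sum.inl (b, s) => fun i => if i = s then sg b else 0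
  | Sum.inr (a, b, c, d) => ![sg a / 2, sg b / 2, sg c / 2, sg d / 2]

/-- the matrix with the rows `x`, `i x`, `j x`, `k x` -/
def O (x : Fin 4 → ℝ) : Matrix (Fin 4) (Fin 4) ℝ :=
  !![x 0, x 1, x 2, x 3;
     -x 1, x 0, -x 3, x 2;
     -x 2, x 3, x 0, -x 1;
     -x 3, -x 2, x 1, x 0]

/-- squared norm -/
def nn (x : Fin 4 → ℝ) : ℝ := ∑ i, x i ^ 2

theorem O_mul_OT (x : Fin 4 → ℝ) : O x * (O x)ᵀ = nn x • (1 : Matrix (Fin 4) (Fin 4) ℝ) := by
  ext i j
  fin_cases i <;> fin_cases j <;>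
    simp [O, nn, Matrix.mul_apply, Fin.sum_univ_four] <;> ring

theorem OT_mul_O (x : Fin 4 → ℝ) : (O x)ᵀ * O x = nn x • (1 : Matrix (Fin 4) (Fin 4) ℝ) := by
  ext i j
  fin_cases i <;> fin_cases j <;>
    simp [O, nn, Matrix.mul_apply, Fin.sum_univ_four] <;> ring

theorem nn_cell (c : IX) : nn (cell c) = 1 := by
  rcases c with ⟨b, s⟩ | ⟨a, b, c, d⟩
  · simp only [nn, cell]
    rw [Finset.sum_eq_single s]
    · cases b <;> simp [sg]
    · intro i _ hi; simp [hi]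
    · simp
  · simp only [nn, cell, Fin.sum_univ_four]
    cases a <;> cases b <;> cases c <;> cases d <;> simp [sg] <;> norm_num

theorem sum_IX (f : IX → ℝ) : ∑ c, f c = (∑ s : Fin 4, (f (Sum.inl (true, s)) + f (Sum.inl (false, s)))) +
    ∑ a : Bool, ∑ b : Bool, ∑ c : Bool, ∑ d : Bool, f (Sum.inr (a, b, c, d)) := by
  rw [Fintype.sum_sum_type, Fintype.sum_prod_type]
  congr 1
  · rw [Fintype.sum_bool, Finset.sum_add_distrib]
  · rw [Fintype.sum_prod_type]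
    refine Finset.sum_congr rfl fun a _ => ?_
    rw [Fintype.sum_prod_type]
    refine Finset.sum_congr rfl fun b _ => ?_
    rw [Fintype.sum_prod_type]

theorem cell_inl (b : Bool) (s : Fin 4) : cell (Sum.inl (b, s)) = fun i => if i = s then sg b else 0 := rfl
theorem cell_inr (a b c d : Bool) :
    cell (Sum.inr (a, b, c, d)) = ![sg a / 2, sg b / 2, sg c / 2, sg d / 2] := rfl

/-- quadratic form -/
def qf {n : ℕ} (N : Matrix (Fin n) (Fin n) ℝ) (y : Fin n → ℝ) : ℝ := ∑ i, ∑ j, N i j * y i * y j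

theorem cell_sum (Q : Matrix (Fin 4) (Fin 4) ℝ) (m : Fin 4 → ℝ) (s : ℝ) :
    ∑ c, (qf Q (cell c) + 2 * (∑ i, m i * cell c i) + s) ^ 2 =
      (∑ i, Q i i) ^ 2 + ∑ i, ∑ j, (Q i j ^ 2 + Q i j * Q j i) + 24 * (∑ i, m i ^ 2) +
        12 * s * (∑ i, Q i i) + 24 * s ^ 2 := by
  rw [sum_IX]
  simp only [qf, cell_inl, cell_inr, Fin.sum_univ_four, Fintype.sum_bool]
  simp [sg]
  ring


theorem cell_sum1 (Q : Matrix (Fin 4) (Fin 4) ℝ) (m : Fin 4 → ℝ) (s : ℝ) :
    ∑ c, (qf Q (cell c) + 2 * (∑ i, m i * cell c i) + s) = 6 * (∑ i, Q i i) + 24 * s := by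
  rw [sum_IX]
  simp only [qf, cell_inl, cell_inr, Fin.sum_univ_four, Fintype.sum_bool]
  simp [sg]
  ring

/-- quaternion multiplication by the unit `c` -/
def mulq (c x : Fin 4 → ℝ) : Fin 4 → ℝ := (O x)ᵀ *ᵥ c

theorem nn_eq (x : Fin 4 → ℝ) : nn x = x ⬝ᵥ x := by
  simp only [nn, dotProduct]
  exact Finset.sum_congr rfl fun i _ => pow_two _

theorem nn_mulq (c x : Fin 4 → ℝ) : nn (mulq c x) = nn c * nn x := by
  rw [nn_eq, mulq, Matrix.dotProduct_mulVec, Matrix.vecMul_transpose, Matrix.mulVec_mulVec,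
    O_mul_OT, Matrix.smul_mulVec, Matrix.one_mulVec, smul_dotProduct, ← nn_eq, smul_eq_mul, mul_comm]

theorem qf_eq {n : ℕ} (N : Matrix (Fin n) (Fin n) ℝ) (y : Fin n → ℝ) : qf N y = y ⬝ᵥ (N *ᵥ y) := by
  simp only [qf, dotProduct, Matrix.mulVec, Finset.mul_sum]
  refine Finset.sum_congr rfl fun i _ => Finset.sum_congr rfl fun j _ => ?_
  ring

theorem qf_mulq (N : Matrix (Fin 4) (Fin 4) ℝ) (c x : Fin 4 → ℝ) :
    qf N (mulq c x) = qf (O x * N * (O x)ᵀ) c := by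
  rw [qf_eq, qf_eq, mulq, Matrix.mul_assoc, ← Matrix.mulVec_mulVec, ← Matrix.mulVec_mulVec,
    Matrix.dotProduct_mulVec c, Matrix.mulVec_transpose (O x) c]

theorem avg2 (N : Matrix (Fin 4) (Fin 4) ℝ) (m : Fin 4 → ℝ) (s v : ℝ) (x : Fin 4 → ℝ) :
    ∑ c, (qf N (mulq (cell c) x) + 2 * v * (∑ i, m i * mulq (cell c) x i) + s * v ^ 2) ^ 2 =
      ((∑ i, N i i) ^ 2 + ∑ i, ∑ j, (N i j ^ 2 + N i j * N j i)) * nn x ^ 2 +
        (24 * (∑ i, m i ^ 2) + 12 * s * (∑ i, N i i)) * (nn x * v ^ 2) + 24 * s ^ 2 * v ^ 4 := by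
  have hm : ∀ c, 2 * v * (∑ i, m i * mulq (cell c) x i) =
      2 * (∑ i, (v • (O x *ᵥ m)) i * cell c i) := by
    intro c
    have : ∑ i, m i * mulq (cell c) x i = (O x *ᵥ m) ⬝ᵥ cell c := by
      change m ⬝ᵥ ((O x)ᵀ *ᵥ cell c) = _
      rw [Matrix.dotProduct_mulVec, Matrix.vecMul_transpose]
    rw [this, mul_assoc]
    congr 1
    rw [← smul_eq_mul, ← smul_dotProduct]
    rfl
  simp only [qf_mulq, hm]
  rw [cell_sum]
  set Q := O x * N * (O x)ᵀ with hQ
  have h1 : ∑ i, Q i i = nn x * ∑ i, N i i := by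
    change Q.trace = nn x * N.trace
    rw [hQ, Matrix.mul_assoc, Matrix.trace_mul_comm, Matrix.mul_assoc, OT_mul_O, Matrix.mul_smul,
      Matrix.mul_one, Matrix.trace_smul, smul_eq_mul]
  have h2 : ∑ i, ∑ j, (Q i j ^ 2 + Q i j * Q j i) = nn x ^ 2 * ∑ i, ∑ j, (N i j ^ 2 + N i j * N j i) := by
    have ha : ∀ P : Matrix (Fin 4) (Fin 4) ℝ, ∑ i, ∑ j, (P i j ^ 2 + P i j * P j i) =
        (P * Pᵀ).trace + (P * P).trace := by
      intro P
      simp only [Matrix.trace, Matrix.diag, Matrix.mul_apply, Matrix.transpose_apply,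
        ← Finset.sum_add_distrib]
      refine Finset.sum_congr rfl fun i _ => Finset.sum_congr rfl fun j _ => ?_
      ring
    rw [ha, ha, mul_add]
    congr 1
    · have : Q * Qᵀ = nn x • (O x * (N * Nᵀ) * (O x)ᵀ) := by
        rw [hQ]
        simp only [Matrix.transpose_mul, Matrix.transpose_transpose]
        calc O x * N * (O x)ᵀ * (O x * (Nᵀ * (O x)ᵀ)) = O x * N * ((O x)ᵀ * O x) * (Nᵀ * (O x)ᵀ) := by
              simp only [Matrix.mul_assoc]
          _ = _ := by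
              rw [OT_mul_O]
              simp only [Matrix.mul_smul, Matrix.smul_mul, Matrix.mul_one, Matrix.mul_assoc]
      rw [this, Matrix.trace_smul, Matrix.mul_assoc, Matrix.trace_mul_comm, Matrix.mul_assoc,
        OT_mul_O, Matrix.mul_smul, Matrix.mul_one, Matrix.trace_smul, smul_eq_mul, smul_eq_mul]
      ring
    · have : Q * Q = nn x • (O x * (N * N) * (O x)ᵀ) := by
        rw [hQ]
        calc O x * N * (O x)ᵀ * (O x * N * (O x)ᵀ) = O x * N * ((O x)ᵀ * O x) * (N * (O x)ᵀ) := by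
              simp only [Matrix.mul_assoc]
          _ = _ := by
              rw [OT_mul_O]
              simp only [Matrix.mul_smul, Matrix.smul_mul, Matrix.mul_one, Matrix.mul_assoc]
      rw [this, Matrix.trace_smul, Matrix.mul_assoc, Matrix.trace_mul_comm, Matrix.mul_assoc,
        OT_mul_O, Matrix.mul_smul, Matrix.mul_one, Matrix.trace_smul, smul_eq_mul, smul_eq_mul]
      ring
  have h3 : ∑ i, (v • (O x *ᵥ m)) i ^ 2 = v ^ 2 * (nn x * ∑ i, m i ^ 2) := by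
    have : ∑ i, (O x *ᵥ m) i ^ 2 = nn x * ∑ i, m i ^ 2 := by
      change nn (O x *ᵥ m) = nn x * nn m
      rw [nn_eq, Matrix.dotProduct_mulVec, ← Matrix.mulVec_transpose, Matrix.mulVec_mulVec,
        OT_mul_O, Matrix.smul_mulVec, Matrix.one_mulVec, smul_dotProduct, ← nn_eq, smul_eq_mul]
    rw [← this, Finset.mul_sum]
    refine Finset.sum_congr rfl fun i _ => ?_
    simp only [Pi.smul_apply, smul_eq_mul]
    ring
  rw [h1, h2, h3]
  ring

theorem avg1 (N : Matrix (Fin 4) (Fin 4) ℝ) (m : Fin 4 → ℝ) (s v : ℝ) (x : Fin 4 → ℝ) :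
    ∑ c, (qf N (mulq (cell c) x) + 2 * v * (∑ i, m i * mulq (cell c) x i) + s * v ^ 2) =
      6 * (∑ i, N i i) * nn x + 24 * s * v ^ 2 := by
  have hm : ∀ c, 2 * v * (∑ i, m i * mulq (cell c) x i) =
      2 * (∑ i, (v • (O x *ᵥ m)) i * cell c i) := by
    intro c
    have : ∑ i, m i * mulq (cell c) x i = (O x *ᵥ m) ⬝ᵥ cell c := by
      change m ⬝ᵥ ((O x)ᵀ *ᵥ cell c) = _
      rw [Matrix.dotProduct_mulVec, Matrix.vecMul_transpose]
    rw [this, mul_assoc]
    congr 1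
    rw [← smul_eq_mul, ← smul_dotProduct]
    rfl
  simp only [qf_mulq, hm]
  rw [cell_sum1]
  have h1 : ∑ i, (O x * N * (O x)ᵀ) i i = nn x * ∑ i, N i i := by
    change (O x * N * (O x)ᵀ).trace = nn x * N.trace
    rw [Matrix.mul_assoc, Matrix.trace_mul_comm, Matrix.mul_assoc, OT_mul_O, Matrix.mul_smul,
      Matrix.mul_one, Matrix.trace_smul, smul_eq_mul]
  rw [h1]
  ring

end Pool.Agent.W699.N4
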