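import Pool.Agent.W546.N4.Defs
import Pool.Agent.W699.N4.Cell

/-!
# Averages over the directions of the first four coordinates
-/

set_option autoImplicit false
open Matrix MeasureTheory Set Metric Filter Topology
open scoped ENNReal

namespace Pool.Agent.W699.N4
open Pool.Agent.Helper82.OS (E gt gw)
open Pool.Agent.W546.N4

/-- first four coordinates -/
def hd (w : E 5) : Fin 4 → ℝ := fun i => w i.castSucc

theorem uu_eq (w : E 5) : uu w = nn (hd w) := rfl

theorem mulq_add (c x y : Fin 4 → ℝ) : mulq c (x + y) = mulq c x + mulq c y := by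
  have : O (x + y) = O x + O y := by
    ext i j; fin_cases i <;> fin_cases j <;> simp [O] <;> ring
  rw [mulq, this, Matrix.transpose_add, Matrix.add_mulVec]
  rfl

theorem mulq_smul (c x : Fin 4 → ℝ) (r : ℝ) : mulq c (r • x) = r • mulq c x := by
  have : O (r • x) = r • O x := by
    ext i j; fin_cases i <;> fin_cases j <;> simp [O]
  rw [mulq, this, Matrix.transpose_smul, Matrix.smul_mulVec]
  rfl

/-- the map on the vectors -/
def pf (c : Fin 4 → ℝ) (w : E 5) : E 5 :=
  WithLp.toLp 2 (Fin.snoc (α := fun _ => ℝ) (mulq c (hd w)) (w 4))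

theorem pf_cs (c : Fin 4 → ℝ) (w : E 5) (i : Fin 4) : pf c w i.castSucc = mulq c (hd w) i := by
  simp [pf]

theorem pf_last (c : Fin 4 → ℝ) (w : E 5) : pf c w 4 = w 4 := by
  show Fin.snoc (α := fun _ => ℝ) (mulq c (hd w)) (w 4) (Fin.last 4) = w 4
  rw [Fin.snoc_last]

theorem hd_pf (c : Fin 4 → ℝ) (w : E 5) : hd (pf c w) = mulq c (hd w) := by
  funext i
  exact pf_cs c w i

theorem norm_sq_eq (w : E 5) : ‖w‖ ^ 2 = uu w + w 4 ^ 2 := by
  rw [EuclideanSpace.real_norm_sq_eq, Fin.sum_univ_castSucc]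
  rfl

theorem uu_pf {c : Fin 4 → ℝ} (hc : nn c = 1) (w : E 5) : uu (pf c w) = uu w := by
  rw [uu_eq, uu_eq, hd_pf, nn_mulq, hc, one_mul]

theorem norm_pf {c : Fin 4 → ℝ} (hc : nn c = 1) (w : E 5) : ‖pf c w‖ = ‖w‖ := by
  have h : ‖pf c w‖ ^ 2 = ‖w‖ ^ 2 := by
    rw [norm_sq_eq, norm_sq_eq, uu_pf hc, pf_last]
  exact (pow_left_inj₀ (norm_nonneg _) (norm_nonneg _) two_ne_zero).1 h

/-- the linear isometry -/
noncomputable def phi (c : Fin 4 → ℝ) (hc : nn c = 1) : E 5 →ₗᵢ[ℝ] E 5 where
  toFun := pf c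
  map_add' x y := by
    have h : ∀ i : Fin 5, pf c (x + y) i = (pf c x + pf c y) i := by
      intro i
      refine Fin.lastCases ?_ (fun i => ?_) i
      · show pf c (x + y) 4 = pf c x 4 + pf c y 4
        rw [pf_last, pf_last, pf_last]; rfl
      · show pf c (x + y) i.castSucc = pf c x i.castSucc + pf c y i.castSucc
        rw [pf_cs, pf_cs, pf_cs]
        have : hd (x + y) = hd x + hd y := rfl
        rw [this, mulq_add]; rfl
    ext i; exact h i
  map_smul' r x := by
    have h : ∀ i : Fin 5, pf c (r • x) i = (r • pf c x) i := by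
      intro i
      refine Fin.lastCases ?_ (fun i => ?_) i
      · show pf c (r • x) 4 = r * pf c x 4
        rw [pf_last, pf_last]; rfl
      · show pf c (r • x) i.castSucc = r * pf c x i.castSucc
        rw [pf_cs, pf_cs]
        have : hd (r • x) = r • hd x := rfl
        rw [this, mulq_smul]; rfl
    ext i; exact h i
  norm_map' w := norm_pf hc w

/-- the integrand -/
noncomputable def integ (F : ℝ → ℝ → ℝ → ℝ) (f : E 5 → ℝ) (w : E 5) (t : ℝ) : ℝ≥0∞ :=
  ENNReal.ofReal (F t (uu w) (w 4) * f w * (gt t * gw w))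

theorem IW_eq (F : ℝ → ℝ → ℝ → ℝ) (f : E 5 → ℝ) : IW F f = ∫⁻ w, ∫⁻ t, integ F f w t := rfl

theorem IW_inv (F : ℝ → ℝ → ℝ → ℝ) (f : E 5 → ℝ) {c : Fin 4 → ℝ} (hc : nn c = 1) :
    IW F (fun w => f (pf c w)) = IW F f := by
  set e := (phi c hc).toLinearIsometryEquiv rfl with he
  have hev : ∀ w, e w = pf c w := fun w => rfl
  have h := e.measurePreserving.lintegral_comp_emb e.toHomeomorph.measurableEmbedding
    (fun w => ∫⁻ t, integ F f w t)
  rw [IW_eq, IW_eq, ← h]
  refine lintegral_congr fun w => lintegral_congr fun t => ?_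
  rw [hev]
  simp only [integ]
  have hg : gw (pf c w) = gw w := by
    unfold Pool.Agent.Helper82.OS.gw
    rw [norm_pf hc]
  rw [uu_pf hc, pf_last, hg]

theorem continuous_uu : Continuous uu := by
  unfold uu
  fun_prop

theorem continuous_gw : Continuous (gw (k := 5)) := by
  unfold Pool.Agent.Helper82.OS.gw
  fun_prop

theorem continuous_gt : Continuous gt := by
  unfold Pool.Agent.Helper82.OS.gt
  fun_prop

theorem gg_nonneg (t : ℝ) (w : E 5) : 0 ≤ gt t * gw w := by
  unfold Pool.Agent.Helper82.OS.gt Pool.Agent.Helper82.OS.gw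
  positivity

variable {F : ℝ → ℝ → ℝ → ℝ} (hF : Measurable (fun p : ℝ × ℝ × ℝ => F p.1 p.2.1 p.2.2))
  (hF0 : ∀ t u v, 0 ≤ F t u v)

include hF in
theorem meas_integ {f : E 5 → ℝ} (hf : Measurable f) :
    Measurable (fun p : E 5 × ℝ => integ F f p.1 p.2) := by
  unfold integ
  refine Measurable.ennreal_ofReal ?_
  refine Measurable.mul (Measurable.mul ?_ (hf.comp measurable_fst)) ?_
  · have h4 : Measurable (fun p : E 5 × ℝ => p.1 4) :=
      ((EuclideanSpace.proj (4 : Fin 5) : E 5 →L[ℝ] ℝ).continuous.measurable).comp measurable_fst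
    have : Measurable (fun p : E 5 × ℝ => ((p.2, uu p.1, p.1 4) : ℝ × ℝ × ℝ)) :=
      measurable_snd.prodMk ((continuous_uu.measurable.comp measurable_fst).prodMk h4)
    exact hF.comp this
  · exact (continuous_gt.measurable.comp measurable_snd).mul
      (continuous_gw.measurable.comp measurable_fst)

include hF hF0 in
theorem IW_add {f g : E 5 → ℝ} (hf : Measurable f) (hf0 : ∀ w, 0 ≤ f w) (hg0 : ∀ w, 0 ≤ g w) :
    IW F (fun w => f w + g w) = IW F f + IW F g := by
  have h1 : ∀ w t, integ F (fun w => f w + g w) w t = integ F f w t + integ F g w t := by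
    intro w t
    simp only [integ]
    rw [← ENNReal.ofReal_add]
    · congr 1; ring
    · exact mul_nonneg (mul_nonneg (hF0 _ _ _) (hf0 w)) (gg_nonneg t w)
    · exact mul_nonneg (mul_nonneg (hF0 _ _ _) (hg0 w)) (gg_nonneg t w)
  simp only [IW_eq, h1]
  have h2 : ∀ w, ∫⁻ t, (integ F f w t + integ F g w t) = (∫⁻ t, integ F f w t) + ∫⁻ t, integ F g w t :=
    fun w => lintegral_add_left ((meas_integ hF hf).comp (measurable_const.prodMk measurable_id)) _
  simp only [h2]
  exact lintegral_add_left (meas_integ hF hf).lintegral_prod_right' _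

theorem IW_smul (F : ℝ → ℝ → ℝ → ℝ) {f : E 5 → ℝ} {a : ℝ} (ha : 0 ≤ a) :
    IW F (fun w => a * f w) = ENNReal.ofReal a * IW F f := by
  have h1 : ∀ w t, integ F (fun w => a * f w) w t = ENNReal.ofReal a * integ F f w t := by
    intro w t
    simp only [integ]
    rw [← ENNReal.ofReal_mul ha]
    congr 1; ring
  simp only [IW_eq, h1]
  simp only [lintegral_const_mul' _ _ ENNReal.ofReal_ne_top]

theorem IW_zero (F : ℝ → ℝ → ℝ → ℝ) : IW F (fun _ => 0) = 0 := by
  simp [IW_eq, integ]

include hF hF0 in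
theorem IW_sum {ι : Type} (s : Finset ι) {f : ι → E 5 → ℝ} (hf : ∀ i, Measurable (f i))
    (hf0 : ∀ i w, 0 ≤ f i w) : IW F (fun w => ∑ i ∈ s, f i w) = ∑ i ∈ s, IW F (f i) := by
  classical
  induction s using Finset.induction_on with
  | empty => simp [IW_zero]
  | insert a s ha ih =>
    rw [Finset.sum_insert ha, ← ih]
    have : (fun w => ∑ i ∈ insert a s, f i w) = fun w => f a w + ∑ i ∈ s, f i w := by
      funext w; rw [Finset.sum_insert ha]
    rw [this]
    exact IW_add hF hF0 (hf a) (hf0 a) (fun w => Finset.sum_nonneg fun i _ => hf0 i w)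

theorem measurable_pf (c : IX) : Measurable (pf (cell c)) :=
  (phi (cell c) (nn_cell c)).continuous.measurable

include hF hF0 in
/-- average -/
theorem IW_avg {f : E 5 → ℝ} (hf : Measurable f) (hf0 : ∀ w, 0 ≤ f w) :
    IW F f = IW F (fun w => (1 / 24) * ∑ c, f (pf (cell c) w)) := by
  rw [IW_smul F (f := fun w => ∑ c, f (pf (cell c) w)) (by norm_num),
    IW_sum hF hF0 Finset.univ (f := fun c w => f (pf (cell c) w))
      (fun c => hf.comp (measurable_pf c)) (fun c w => hf0 _)]
  simp only [IW_inv F f (nn_cell _)]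
  rw [Finset.sum_const, Finset.card_univ]
  have hc : Fintype.card IX = 24 := by rfl
  rw [hc, nsmul_eq_mul, ← mul_assoc]
  have : ENNReal.ofReal (1 / 24) * ((24 : ℕ) : ℝ≥0∞) = 1 := by
    rw [← ENNReal.ofReal_natCast, ← ENNReal.ofReal_mul (by norm_num)]
    norm_num
  rw [this, one_mul]

theorem null_uu : volume {w : E 5 | uu w = 0} = 0 := by
  refine measure_mono_null (t := ((LinearMap.ker (EuclideanSpace.proj (0 : Fin 5) : E 5 →L[ℝ] ℝ).toLinearMap :
    Submodule ℝ (E 5)) : Set (E 5))) ?_ (Measure.addHaar_submodule _ _ ?_)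
  · intro w hw
    have h : uu w = 0 := hw
    unfold uu at h
    rw [Finset.sum_eq_zero_iff_of_nonneg (fun i _ => sq_nonneg _)] at h
    have := h 0 (Finset.mem_univ _)
    simpa using this
  · intro h
    have h1 : (EuclideanSpace.single (0 : Fin 5) (1 : ℝ)) ∈ LinearMap.ker
        (EuclideanSpace.proj (0 : Fin 5) : E 5 →L[ℝ] ℝ).toLinearMap := by rw [h]; trivial
    simp at h1

theorem IW_congr (F : ℝ → ℝ → ℝ → ℝ) {f g : E 5 → ℝ} (h : ∀ w, uu w ≠ 0 → f w = g w) :
    IW F f = IW F g := by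
  rw [IW_eq, IW_eq]
  apply lintegral_congr_ae
  have : ∀ᵐ w : E 5, uu w ≠ 0 := by
    rw [ae_iff]
    simpa using null_uu
  filter_upwards [this] with w hw
  simp only [integ, h w hw]

end Pool.Agent.W699.N4
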